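import Pool.Agent.Helper20.ZT.Defs

/-! # Domination and leading coefficients (module Z5 of MP_130685_nt Translates) -/

namespace Pool.Agent.Helper20.ZT
open Finset MvPolynomial

theorem valuation_inv_lt_one {K : Type*} [Field K] (O : ValuationSubring K) {x : K} (hx : x ∉ O) :
    O.valuation x⁻¹ < 1 := by
  have h : 1 < O.valuation x := by
    by_contra h
    exact hx ((O.valuation_le_one_iff x).1 (not_lt.1 h))
  rw [map_inv₀]
  exact inv_lt_one_of_one_lt₀ h

/-- dividing the equation `f(P) = 0` by the top monomial in the variables of `T` -/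
theorem lead_core {n : ℕ} {K : Type*} [Field K] [Algebra ℂ K] (O : ValuationSubring K)
    (f : MvPolynomial (Fin n) ℂ) (hO : ∀ m, algebraMap ℂ K (f.coeff m) ∈ O) (T : Finset (Fin n))
    {P : Fin n → K} (hP : aeval P f = 0) (hT : ∀ i ∈ T, P i ∉ O)
    (hT' : ∀ i ∉ T, P i ∈ O ∨ f.degreeOf i = 0) :
    ∑ m ∈ f.support with (∀ i ∈ T, m i = f.degreeOf i),
      algebraMap ℂ K (f.coeff m) * ∏ i ∈ univ \ T, P i ^ m i ∈ O.nonunits := by
  classical
  have hP0 : ∀ i ∈ T, P i ≠ 0 := fun i hi h => hT i hi (h ▸ O.zero_mem)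
  have hsum : ∑ m ∈ f.support, algebraMap ℂ K (f.coeff m) *
      ((∏ i ∈ T, (P i)⁻¹ ^ (f.degreeOf i - m i)) * ∏ i ∈ univ \ T, P i ^ m i) = 0 := by
    have h1 : (∏ i ∈ T, (P i)⁻¹ ^ f.degreeOf i) * aeval P f = 0 := by rw [hP, mul_zero]
    rw [aeval_def, eval₂_eq', mul_sum] at h1
    rw [← h1]
    refine sum_congr rfl fun m hm => ?_
    have h2 : ∏ i, P i ^ m i = (∏ i ∈ T, P i ^ m i) * ∏ i ∈ univ \ T, P i ^ m i := by
      rw [mul_comm]
      exact (prod_sdiff (subset_univ T)).symm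
    have h3 : ∏ i ∈ T, (P i)⁻¹ ^ (f.degreeOf i - m i) =
        (∏ i ∈ T, (P i)⁻¹ ^ f.degreeOf i) * ∏ i ∈ T, P i ^ m i := by
      rw [← prod_mul_distrib]
      refine prod_congr rfl fun i hi => ?_
      have h4 : m i ≤ f.degreeOf i := monomial_le_degreeOf i hm
      obtain ⟨k, hk⟩ := Nat.exists_eq_add_of_le h4
      rw [hk, Nat.add_sub_cancel_left, pow_add]
      have h5 : (P i)⁻¹ ^ m i * P i ^ m i = 1 := by
        rw [← mul_pow, inv_mul_cancel₀ (hP0 i hi), one_pow]
      calc (P i)⁻¹ ^ k = (P i)⁻¹ ^ k * ((P i)⁻¹ ^ m i * P i ^ m i) := by rw [h5, mul_one]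
        _ = (P i)⁻¹ ^ m i * (P i)⁻¹ ^ k * P i ^ m i := by ring
    rw [h2, h3]
    ring
  rw [← sum_filter_add_sum_filter_not f.support (fun m => ∀ i ∈ T, m i = f.degreeOf i)] at hsum
  have hA : ∑ m ∈ f.support with (∀ i ∈ T, m i = f.degreeOf i), algebraMap ℂ K (f.coeff m) *
      ((∏ i ∈ T, (P i)⁻¹ ^ (f.degreeOf i - m i)) * ∏ i ∈ univ \ T, P i ^ m i) =
      ∑ m ∈ f.support with (∀ i ∈ T, m i = f.degreeOf i),
      algebraMap ℂ K (f.coeff m) * ∏ i ∈ univ \ T, P i ^ m i := by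
    refine sum_congr rfl fun m hm => ?_
    rw [mem_filter] at hm
    rw [prod_eq_one fun i hi => by rw [hm.2 i hi, Nat.sub_self, pow_zero], one_mul]
  rw [hA] at hsum
  rw [eq_neg_of_add_eq_zero_left hsum, O.mem_nonunits_iff, Valuation.map_neg]
  refine Valuation.map_sum_lt _ one_ne_zero fun m hm => ?_
  rw [mem_filter] at hm
  obtain ⟨hm, hm2⟩ := hm
  push Not at hm2
  obtain ⟨j, hj, hjm⟩ := hm2
  have hle : m j < f.degreeOf j := lt_of_le_of_ne (monomial_le_degreeOf j hm) hjm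
  have e1 : O.valuation (algebraMap ℂ K (f.coeff m)) ≤ 1 := (O.valuation_le_one_iff _).2 (hO m)
  have e2 : O.valuation (∏ i ∈ univ \ T, P i ^ m i) ≤ 1 := by
    rw [map_prod]
    refine prod_le_one' fun i hi => ?_
    rw [mem_sdiff] at hi
    rcases hT' i hi.2 with h | h
    · rw [map_pow]
      exact pow_le_one' ((O.valuation_le_one_iff _).2 h) _
    · have : m i = 0 := Nat.le_zero.1 (h ▸ monomial_le_degreeOf i hm)
      rw [this, pow_zero, map_one]
  have e3 : O.valuation (∏ i ∈ T, (P i)⁻¹ ^ (f.degreeOf i - m i)) < 1 := by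
    rw [map_prod, ← mul_prod_erase T _ hj]
    have e4 : O.valuation ((P j)⁻¹ ^ (f.degreeOf j - m j)) < 1 := by
      rw [map_pow]
      exact pow_lt_one₀ zero_le (valuation_inv_lt_one O (hT j hj)) (by omega)
    have e5 : ∏ i ∈ T.erase j, O.valuation ((P i)⁻¹ ^ (f.degreeOf i - m i)) ≤ 1 := by
      refine prod_le_one' fun i hi => ?_
      rw [map_pow]
      exact pow_le_one' (valuation_inv_lt_one O (hT i (mem_of_mem_erase hi))).le _
    exact mul_lt_one_of_lt_of_le e4 e5
  rw [map_mul, map_mul]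
  calc O.valuation (algebraMap ℂ K (f.coeff m)) *
        (O.valuation (∏ i ∈ T, (P i)⁻¹ ^ (f.degreeOf i - m i)) *
          O.valuation (∏ i ∈ univ \ T, P i ^ m i))
      ≤ O.valuation (∏ i ∈ T, (P i)⁻¹ ^ (f.degreeOf i - m i)) *
          O.valuation (∏ i ∈ univ \ T, P i ^ m i) := mul_le_of_le_one_left' e1
    _ < 1 := mul_lt_one_of_lt_of_le e3 e2

theorem domin {n : ℕ} {K : Type*} [Field K] [Algebra ℂ K] (O : ValuationSubring K)
    {J : Finset (Fin n)} {f : MvPolynomial (Fin n) ℂ} (hf : TopIn J f)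
    (hO : ∀ m, algebraMap ℂ K (f.coeff m) ∈ O)
    (htop : algebraMap ℂ K (f.coeff (Finsupp.equivFunOnFinite.symm fun i => f.degreeOf i)) ∉
      O.nonunits)
    {P : Fin n → K} (hP : aeval P f = 0) : ∃ i ∈ J, P i ∈ O := by
  classical
  by_contra hcon
  push Not at hcon
  have hdeg : ∀ i ∉ J, f.degreeOf i = 0 := fun i hi => by
    refine Nat.le_zero.1 (degreeOf_le_iff.2 fun m hm => Nat.le_zero.2 ?_)
    by_contra h
    exact hi (hf.vars ((mem_vars_iff_mem_support i).2 ⟨m, hm, Finsupp.mem_support_iff.2 h⟩))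
  have h := lead_core O f hO J hP hcon fun i hi => Or.inr (hdeg i hi)
  set t : Fin n →₀ ℕ := Finsupp.equivFunOnFinite.symm fun i => f.degreeOf i with ht
  have htm : t ∈ f.support := mem_support_iff.2 hf.top
  have hti : ∀ i, t i = f.degreeOf i := fun i => rfl
  have hfil : f.support.filter (fun m => ∀ i ∈ J, m i = f.degreeOf i) = {t} := by
    ext m
    rw [mem_filter, mem_singleton]
    constructor
    · rintro ⟨h1, h2⟩
      ext i
      rw [hti]
      by_cases hi : i ∈ J
      · exact h2 i hi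
      · have := monomial_le_degreeOf i h1
        rw [hdeg i hi] at this ⊢
        omega
    · rintro rfl
      exact ⟨htm, fun i _ => hti i⟩
  rw [hfil, sum_singleton, prod_eq_one, mul_one] at h
  · exact htop h
  · intro i hi
    rw [mem_sdiff] at hi
    rw [hti, hdeg i hi.2, pow_zero]

theorem lead_nonunit {n : ℕ} {K : Type*} [Field K] [Algebra ℂ K] (O : ValuationSubring K)
    (f : MvPolynomial (Fin n) ℂ) (hO : ∀ m, algebraMap ℂ K (f.coeff m) ∈ O) (T : Finset (Fin n))
    {P : Fin n → K} (hP : aeval P f = 0) (hT : ∀ i, P i ∈ O ↔ i ∉ T) {P' : Fin n → K}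
    (hP' : ∀ i ∉ T, P' i - P i ∈ O.nonunits) : aeval P' (lead T f) ∈ O.nonunits := by
  classical
  have h := lead_core O f hO T hP (fun i hi h => (hT i).1 h hi) fun i hi => Or.inl ((hT i).2 hi)
  have hl : aeval P' (lead T f) = ∑ m ∈ f.support with (∀ i ∈ T, m i = f.degreeOf i),
      algebraMap ℂ K (f.coeff m) * ∏ i ∈ univ \ T, P' i ^ m i := by
    rw [lead, map_sum]
    refine sum_congr rfl fun m _ => ?_
    rw [map_mul, aeval_C, map_prod]
    simp only [map_pow, aeval_X]
  have hPO : ∀ i ∉ T, O.valuation (P i) ≤ 1 := fun i hi =>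
    (O.valuation_le_one_iff _).2 ((hT i).2 hi)
  have hdiff : ∀ i ∉ T, O.valuation (P' i - P i) < 1 := fun i hi =>
    (O.mem_nonunits_iff).1 (hP' i hi)
  have hPO' : ∀ i ∉ T, O.valuation (P' i) ≤ 1 := fun i hi => by
    have : P' i = (P' i - P i) + P i := by ring
    rw [this]
    exact (O.valuation.map_add _ _).trans (max_le (hdiff i hi).le (hPO i hi))
  -- powers
  have hpow : ∀ i ∉ T, ∀ k : ℕ, O.valuation (P' i ^ k - P i ^ k) < 1 := by
    intro i hi k
    induction k with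
    | zero => simp
    | succ k ih =>
      have : P' i ^ (k + 1) - P i ^ (k + 1) =
          P' i ^ k * (P' i - P i) + (P' i ^ k - P i ^ k) * P i := by ring
      rw [this]
      refine O.valuation.map_add_lt ?_ ?_
      · rw [map_mul, map_pow]
        rw [mul_comm]
        exact mul_lt_one_of_lt_of_le (hdiff i hi) (pow_le_one' (hPO' i hi) _)
      · rw [map_mul]
        exact mul_lt_one_of_lt_of_le ih (hPO i hi)
  have hprod : ∀ (m : Fin n →₀ ℕ) (S : Finset (Fin n)), (∀ i ∈ S, i ∉ T) →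
      O.valuation (∏ i ∈ S, P' i ^ m i - ∏ i ∈ S, P i ^ m i) < 1 := by
    intro m S hS
    induction S using Finset.induction_on with
    | empty => simp
    | insert a S ha ih =>
      rw [prod_insert ha, prod_insert ha]
      have haT : a ∉ T := hS a (mem_insert_self _ _)
      have ih' := ih fun i hi => hS i (mem_insert_of_mem hi)
      have : P' a ^ m a * ∏ i ∈ S, P' i ^ m i - P a ^ m a * ∏ i ∈ S, P i ^ m i =
          P' a ^ m a * (∏ i ∈ S, P' i ^ m i - ∏ i ∈ S, P i ^ m i) +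
          (P' a ^ m a - P a ^ m a) * ∏ i ∈ S, P i ^ m i := by ring
      rw [this]
      refine O.valuation.map_add_lt ?_ ?_
      · rw [map_mul, map_pow]
        rw [mul_comm]
        exact mul_lt_one_of_lt_of_le ih' (pow_le_one' (hPO' a haT) _)
      · rw [map_mul]
        refine mul_lt_one_of_lt_of_le (hpow a haT _) ?_
        rw [map_prod]
        refine prod_le_one' fun i hi => ?_
        rw [map_pow]
        exact pow_le_one' (hPO i (hS i (mem_insert_of_mem hi))) _
  rw [O.mem_nonunits_iff] at h ⊢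
  have hsub : aeval P' (lead T f) = ∑ m ∈ f.support with (∀ i ∈ T, m i = f.degreeOf i),
      algebraMap ℂ K (f.coeff m) * (∏ i ∈ univ \ T, P' i ^ m i - ∏ i ∈ univ \ T, P i ^ m i) +
      ∑ m ∈ f.support with (∀ i ∈ T, m i = f.degreeOf i),
      algebraMap ℂ K (f.coeff m) * ∏ i ∈ univ \ T, P i ^ m i := by
    rw [hl, ← sum_add_distrib]
    refine sum_congr rfl fun m _ => ?_
    ring
  rw [hsub]
  refine O.valuation.map_add_lt ?_ h
  refine Valuation.map_sum_lt _ one_ne_zero fun m _ => ?_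
  rw [map_mul, mul_comm]
  refine mul_lt_one_of_lt_of_le (hprod m _ fun i hi => ?_) ((O.valuation_le_one_iff _).2 (hO m))
  rw [mem_sdiff] at hi
  exact hi.2

end Pool.Agent.Helper20.ZT
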